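import Pool.Agent.Run7.h142.CE.GTC

/-!
# The generalized Tate conjecture for all products of varieties over finite fields is equivalent to the
# Tate conjecture in small codimension for small products

The setting. Let `C j` be smooth projective varieties over the algebraic closure of the field with `p`
elements which are like all curves (`IsComplete`): the cohomology is generated by the classes of
algebraic cycles and by `H¹`, an algebraic class defines a nondegenerate form on `H¹`, and each
possible Newton function of weight one occurs in `H¹` of one of the `C j`. By the theorem of Honda this
is true for the family of all curves, and of all abelian varieties. Let `X i` be any smooth projective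
varieties whose cohomology is generated, as an algebra, by the classes of algebraic cycles and by the
cohomology in the degrees `d ≤ D i`, for instance with `D i = dim X i` (hard Lefschetz theorem). The
cohomology has coefficients in a field which contains the eigenvalues of Frobenius, for instance an
algebraic closure of `ℚ_ℓ`. The *small products* are
* the products `X i × C j × ... × C j'` with `m ≤ D i` factors `C j`, in codimension `m`,
* the products `C j₁ × C j₂ × C j₃ × C j₄` in codimension two.

The geometric coniveau filtration `N ^ ν H(Y)` (`coniveau`) is spanned by the images of the Gysin
homomorphisms of all morphisms `Y' → Y` with `dim Y' + ν ≤ dim Y`. The conjecture `GTC Φ Y i ν` says that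
each generalized eigenvector of the Frobenius endomorphism (over any finite field, with `q` elements) in
`H ^ i (Y)` whose eigenvalue is `q ^ ν` times an algebraic integer belongs to `N ^ ν H(Y)`. These
vectors span the largest subrepresentation `V` of `H ^ i (Y)` such that `V(ν)` is effective, so this is the
question of the problem for the finite field and its finite extensions.

**Theorem.** *The following statements are equivalent.*
* *The generalized Tate conjecture holds, for all degrees `i` and all `ν`, for all varieties which are
  dominated by products of any number of the varieties `X i` and `C j`.*
* *The generalized Tate conjecture holds for the small products, in the degree `2 m` and for `ν = m`.*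
* *The Tate conjecture with semisimplicity at `q ^ m` holds for the small products in codimension `m`.*

*If Frobenius is semisimple on `H¹ (C j)` (for curves and abelian varieties a theorem of Weil) and on
`H ^ d (X i)` for `d ≤ D i`, then they are equivalent to the Tate conjecture (without semisimplicity) for
the small products in codimension `m`.*

In particular:
* (no `X i`) **the generalized Tate conjecture, for all degrees and all `ν`, for all abelian varieties and
  all varieties which are dominated by products of curves, over finite fields, is equivalent to the
  Tate conjecture in codimension two for the products of four curves**;
* (surfaces) it holds for all products of any number of surfaces, curves and abelian varieties if the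
  Tate conjecture with semisimplicity holds in codimension `m` for the products of a surface and `m ≤ 2`
  curves;
* it holds for all products of varieties of dimension `≤ n` if the Tate conjecture with semisimplicity
  holds in the codimensions `≤ max (n, 2)` for the varieties of dimension `≤ 2 n` (`n ≥ 2`).

In contrast to the known implication (the Tate conjecture for all varieties implies the generalized Tate
conjecture for all varieties) the Tate conjecture is only used for the small products, and in the
small codimensions; in odd degrees and for each `ν` the auxiliary curves are found by `exists_pieces`.

The hypothesis `CyclesHaveConiveau` says that the class of a cycle of codimension `m` belongs to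
`N ^ m`; this is true by the theorem of de Jong on alterations (the class of a subvariety is a multiple
of the image of `1`).

The proof. The cohomology of a product is spanned by the products of cycles of codimension `j` and of
words in generalized eigenvectors; the slopes of the eigenvalue `ω` of a word of degree `d` are
`d / 2 - s τ`, and `ω` is `q ^ ν` times an algebraic integer only if `s τ ≤ d / 2 - ν` (`slopes_le`). Then
`s` is a slope function of weight `d - 2 ν`, so it is a sum of `d - 2 ν` slope functions of weight one
(`exists_pieces`), which occur in `H¹` of varieties `C j` (Honda). The product of the word and of the
dual letters is a Tate class of codimension `d - ν`, so it is algebraic if the Tate conjecture holds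
for the small products (`algL_all`, the theorem of `MP_0f183b_ag.SmallProductsSuffice`), and hence it
has coniveau `d - ν`. The removal of one letter in `H¹ (C j)` by duality on `C j` lowers the coniveau by
one (`conL_cancel`): after the removal of the `d - 2 ν` letters the word has coniveau `ν`. For dominated
varieties only the component of `z` of the right codimension contributes (`con_dominated`). Conversely a
class of degree `2 m` in `N ^ m` is algebraic (`alg_of_con`).

Earlier work: Grothendieck, Honda, Kahn, Milne and Ramachandran (over finite fields the Tate conjecture
for all varieties implies the generalized Tate conjecture; the argument with Honda's theorem), Milne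
(Motives over finite fields; Lefschetz motives and the Tate conjecture), Hazama (the general Hodge
conjecture for abelian varieties of CM type). The reduction to the small products is new as far as I know.
-/

set_option autoImplicit false

open CategoryTheory AlgebraicGeometry

universe u v w w'

namespace Pool.Agent.Results.MP_8abef2_ag.ConiveauSmallProducts

open Pool.Agent.H914 Pool.Agent.W534 Pool.Agent.Run7.h142.GT Pool.Agent.Run7.h142.CE VarClass Obj
  WeilCohomology

/-- **The generalized Tate conjecture for all varieties dominated by products of the `X i` and `C j` is
equivalent to the Tate conjecture of codimension `m ≤ D i` for the products of `X i` and `m` of the `C j`,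
and of codimension two for the products of four of the `C j`.** -/
theorem result {k : Type u} [Field k] {𝒱 : VarClass k} {ops : CycleOps 𝒱}
    (W : WeilCohomology.{u, v} ops) (hcon : CyclesHaveConiveau W) (p : ℕ) [Fact p.Prime]
    (Φ : FrobSystem W p) (K : Type) [Field K] [CharZero K] [Algebra.IsAlgebraic ℚ K]
    (σ : K →+* W.K) (c : K →+* K) (Λ : AddSubgroup ℝ) (hΛ : (1 / 2 : ℝ) ∈ Λ) {J : Type w}
    (C : J → 𝒱.Obj) (hC : IsComplete Φ σ c Λ C) {I : Type w'} (X : I → 𝒱.Obj) (D : I → ℕ)
    (hX : ∀ i, IsGenerated Φ σ c Λ (D i) (X i)) :
    (GTCForDominated Φ C X ↔ GTCForSmall Φ C X D) ∧
    (GTCForDominated Φ C X ↔ StrongTateForSmall Φ C X D) ∧
    ((∀ j, IsSemisimple Φ 1 (C j)) → (∀ i, IsSemisimple Φ (D i) (X i)) →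
      (GTCForDominated Φ C X ↔ TateForSmall Φ C X D)) :=
  ⟨gtc_iff_small hcon hΛ hC hX, gtc_iff_strong hcon hΛ hC hX, gtc_iff_plain hcon hΛ hC hX⟩

end Pool.Agent.Results.MP_8abef2_ag.ConiveauSmallProducts
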