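import Pool.Agent.Run7.h306.GU9

/-!
# The generalized Tate conjecture for products of cyclic coverings with arbitrary varieties

Let `V i` be smooth projective varieties over an algebraic closure of the field with `p` elements
which are models of cyclic coverings `w ^ N_i = ∏ l_k (x) ^ a_k` of projective spaces (all
hyperplane arrangements; the `V i` may be defined over different finite fields), and let `Z` be **any**
smooth projective variety such that some power of each Frobenius eigenvalue of `Z` has at most the
degree `D` over `ℚ`; this is so if all Betti numbers of `Z` are at most `D`.

Theorem. Let the degrees `N_i` be pairwise coprime divisors of `p - 1` which are large in terms of `D`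
and of the exponents `a_k` (`IsVeryLarge`), or let the general condition `HaveWeightsOne` on the
exponents be satisfied. Then for all products `Y = V i₁ × ⋯ × V i_r × Z` with different indices **the
generalized Tate conjecture for `Y` (all degrees, all coniveaus) is equivalent to the generalized Tate
conjecture for `Z`.** In particular it is true for `Y` if `Z` is a point or a curve, or a surface for
which the Tate conjecture is known, with the semisimplicity of Frobenius and the hard Lefschetz
theorem (for instance abelian surfaces and `K3` surfaces, `D ≥ 22`): these are unconditional new cases
with arbitrarily many transcendental factors.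

The proof. The cohomology of `V i` is the sum of the subspace generated by algebraic cycles and of a
subspace `T i` without invariants under the covering group. Let `α i` be Frobenius eigenvalues on
`T i`, for `i` in a nonempty set `I`, and `β` one on `Z`. By the theorem of Stickelberger, in the form
of a `p`-adic estimate of the exponential sums (`N876/TC` of the starting files), all the valuations of
the `α i` at a p-adic place are determined by one character of the group `(ℤ / N)ˣ`. The
automorphisms of `ℂ` which fix a power of `β` act on this character through a subgroup of index at
most `D`, which contains, by Polya's and Vinogradov's method, an element which makes all `α i` units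
at this place. So if `∏ α i β` is divisible by `q ^ ν` then `β` is divisible by `q ^ ν`: the Galois
coniveau of `T i ⊗ H(Z)` comes only from `Z`. The coniveau filtration is compatible with exterior
products; for the converse one multiplies with the class of a point of `V i` and takes the
push-forward to `Z`.

Over a finite field effective means entire, and both coniveau filtrations do not change if the finite
field is extended; so they are defined over the algebraic closure. `Φ` is the system of the Frobenius
endomorphisms (`FrobSystem`), `W` the `l`-adic cohomology. That classes of cycles have coniveau
(`CyclesHaveConiveau`, by alterations) and the Weil conjectures for `Z` are theorems.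
-/

set_option autoImplicit false

open CategoryTheory AlgebraicGeometry

namespace Pool.Agent.Results.MP_8abef2_ag.CoveringTowers

open Pool.Agent.H914 Pool.Agent.H914.VarClass Pool.Agent.H914.VarClass.Obj
  Pool.Agent.H914.WeilCohomology Pool.Agent.W534 Pool.Agent.R940 Pool.Agent.N204.GT
  Run7.h306 Run7.h306.GU

/-- **The generalized Tate conjecture for products of `Z` with cyclic coverings is equivalent to the
one for `Z`.** -/
theorem result {k : Type} [Field k] {𝒱 : VarClass k} {ops : CycleOps 𝒱}
    {W : WeilCohomology.{0, 0} ops} {p : ℕ} [Fact p.Prime] (Φ : FrobSystem W p) (σ : W.K →+* ℂ)
    (hcyc : CyclesHaveConiveau W) {ι : Type} {κ : ι → Type} [∀ i, Field (κ i)]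
    [∀ i, Fintype (κ i)] (X : ∀ i, TG.Covering (κ i)) (hX : ∀ i, (X i).IsAdmissible)
    (V : ι → 𝒱.Obj) (hV : ∀ i, IsCoveringVariety Φ σ (X i) (V i))
    (hbig : ∀ i, HasBigDivisor ops (V i)) (f : ι → ℕ) (hf : ∀ i, Fintype.card (κ i) = p ^ f i)
    (D : ℕ) (Z : 𝒱.Obj) (hW : WeilConjectures Φ σ Z) (hZ : HasEigenvaluesOfDegree Φ σ D Z) :
    (∀ N : ℕ, 0 < N → (∀ i, (X i).N ∣ N) → HaveWeightsOne X p f N D → GTCForProducts Φ V Z) ∧
    ∀ [Fintype ι], (∀ i i', i ≠ i' → ((X i).N).Coprime (X i').N) → (∀ i, p % (X i).N = 1) →
      (∀ i, IsVeryLarge (X i) D) → GTCForProducts Φ V Z :=
  ⟨fun _ hN hdN h => products hX hV hbig hf hcyc hN hdN h hW hZ,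
    fun hco hc h => products_large hX hV hbig hf hcyc hco hc h hW hZ⟩

end Pool.Agent.Results.MP_8abef2_ag.CoveringTowers
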