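import Pool.Agent.Run7.h798.Tate.GT

/-!
# MP_8abef2_ag, Q1: the generalized Tate conjecture and singular cubic hypersurfaces

For a finite extension `K` of the prime field `k` and a scheme `X` over `K` the object `T K r j X` is the
inclusion of the geometric in the arithmetic coniveau filtration of the part of lowest weight of
`H_{2j-r}(X̄, ℚ_ℓ)`: classes supported in dimension `≤ j`, and subrepresentations `V` such that `V(-j)`
is effective of weight `r`. For smooth projective `X` of dimension `n` this is
`N^ν H^i ⊆ N_ℓ^ν H^i` with `ν = n - j` and `i = r + 2ν`.
-/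

set_option autoImplicit false

open CategoryTheory AlgebraicGeometry Pool.Agent.Y116.UV Pool.Agent.Q193.LT Pool.Agent.Q282.UK
  Pool.Agent.Q282.UZ Run7.h798.UV Run7.h798.Tate Run7.h798.Tate.GT

universe w

namespace Pool.Agent.Results.MP_8abef2_ag.CubicHypersurfaces

/-- **Theorem.** Let `r` and `N` be natural numbers. The generalized Tate conjecture `N^ν H^i = N_ℓ^ν H^i`
in the level `r = i - 2ν`, for all number fields, all smooth projective varieties and all `ν`, is true
if and only if its homological form is true in the dimensions `j ≥ N` for the (singular) cubic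
hypersurfaces in the projective spaces over `ℚ`, if and only if it is true for the cubic hypersurfaces
given by trilinear forms `∑_l z_l f_l(x, y)` in which every `f_l` is a sum of at most three monomials
`x_i y_j`, and if and only if it is true for all separated schemes of finite type over all number
fields. The same is true for the finite fields of characteristic `p` and cubic hypersurfaces over the
prime field. -/
theorem result {E : Type} [Field E] (r N : ℕ) :
    (∀ D : Theory.{w} ℚ E, D.Geometric →
      (D.GTC r ↔ D.GTCAll r) ∧ (D.GTC r ↔ D.Cubics r N) ∧ (D.GTC r ↔ D.Trilinear r N)) ∧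
    ∀ (p : ℕ) [Fact p.Prime] (D : Theory.{w} (ZMod p) E), D.Geometric →
      (D.GTC r ↔ D.GTCAll r) ∧ (D.GTC r ↔ D.Cubics r N) ∧ (D.GTC r ↔ D.Trilinear r N) :=
  ⟨fun D h => main_rat D h r N, fun p _ D h => main_p p D h r N⟩

end Pool.Agent.Results.MP_8abef2_ag.CubicHypersurfaces
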