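import Pool.Agent.Run7.h190.GT.Final

/-!
# The generalized Tate conjecture over number fields for products of powers of varieties with finite
inertia and unit roots with arbitrary varieties

Let `F` be a number field (or a finitely generated field) with Galois group `Γ`, `k` an algebraic closure
of `F`, and `W` a Weil cohomology theory for the varieties over `k` with algebraically closed
coefficients `K` (an algebraic closure of `ℚ_ℓ`). A `GVar` is a variety with an action of `Γ` on its
cohomology (`IsGaloisVar`: it has the formal properties of the action of the Galois group; `χ` is the
action on the Tate twists, `χ(Fr_v) = q_v` for a geometric Frobenius element `Fr_v`). Let `𝓟` be a set of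
elements of `Γ` (Frobenius elements at places of good reduction).

**The generalized Tate conjecture** (`GTC χ 𝓟 Y`) is the question Q1 of the page for `Y`, over all finite
extensions of `F`, in all degrees `i` and for all coniveaus `ν`: let `U ⊆ H^i(Y)` be a subspace which is
stable under a subgroup `Δ` of finite index and such that `U(ν)` is entire: the numbers
`a / χ(F ^ k) ^ ν` are algebraic integers for all eigenvalues `a` on `U` of the powers `F ^ k ∈ Δ`,
`k > 0`, of the elements `F` of `𝓟` (by the Weil conjectures and the second point of the page this means
that `U(ν)` is effective of weight `i - 2 ν`). Then `U` is contained in the coniveau filtration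
`N^ν H(Y)`, the span of the images of the Gysin homomorphisms of the morphisms `Y' ⟶ Y` with
`dim Y' ≤ dim Y - ν`. (The coniveau filtrations do not change if one extends `F`, by taking conjugates.)
If `𝓟` consists of the Frobenius elements at all places at which `U` is unramified, this is the
conjecture of the page; for a smaller set `𝓟` it is a stronger statement about `Y`.

Let `Y_i` be varieties with an action of `Γ` for which homological and numerical equivalence coincide
(for example surfaces in any characteristic), whose transcendental cohomology `T_i` (the orthogonal
complement of all algebraic classes) is in the middle degree and irreducible under all subgroups of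
finite index of `Γ`, and which satisfy the local condition `ParityCondition` of the results
`EvenFiniteInertia` (`MP_6054cc_ag`, `MP_af4e75_ag`): if `dim Y_i` is even, some element of `Γ` is
hyperbolic on `T_i` and some element `g_i` with `χ(g_i) = 1` (inertia) acts on `T_i` with finite order
and a simple isolated eigenvalue (for instance a reflection: an ordinary double point in odd residue
characteristic, if `g_i` acts trivially on `Z` and the other `Y_j`); if `dim Y_i` is odd, there is a
unipotent element of this kind with coprime defects, or one of finite order with two isolated sets of
eigenvalues. Moreover let `m_i` be numbers such that every `F` in `𝓟` has **`m_i` unit roots** on `T_i`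
(`HasUnitRoots`): for every valuation ring `O` of `K` a power of `F` has `m_i` linearly independent
eigenvectors in `T_i`, pairwise orthogonal and isotropic, with eigenvalues in `Oˣ`. (If `O` lies over the
residue characteristic of the place this means that the multiplicity of the slope `0` on `T_i` is at
least `m_i`; the eigenvectors are then isotropic automatically. For the other `O` all eigenvalues are
units. For ordinary places of `Y_i` one can take `m_i = h^{n,0}(Y_i)`, `n = dim Y_i`, if `2 m_i < dim T_i`
and Frobenius is semisimple: `m_i = 1` for `K3` surfaces, `m_i = p_g` for surfaces.) If `dim Y_i` is even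
we suppose `2 m_i < dim T_i`.

**Theorem.** Let `Z` be **any** variety with an action of `Γ`, and let `T = Y_1^(n_1) × ⋯ × Y_r^(n_r) × Z`
with pairwise different `Y_i` and `1 ≤ n_i ≤ m_i` (`PowTower`), such that the representation `H(T)` is
semisimple. Then

1. **the generalized Tate conjecture for `T` is equivalent to the one for `Z`;**
2. if it is true for `Z`, it is true for all varieties dominated by `T`;
3. it is **true** for `T`, and for all varieties dominated by `T`, if `Z` is a point (all `i` and `ν`).

This seems to be new: in 3 the conjecture is proved for the varieties `Y_1^(n_1) × ⋯ × Y_r^(n_r)` and for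
their images, of arbitrarily large dimension, of both parities, with transcendental cohomology of
geometric genus possibly greater than one and without complex or real multiplication; in 1 and 2 `Z` is
arbitrary. The semisimplicity of `H(T)` is known for example if `T` is a product of `K3` surfaces and
abelian varieties.

The proof. Let `G` be the Zariski closure of the image of `Δ` in `GL(T_i) × GL(H(Z))`. The results of the
library `EV` (classification of Lie algebras of orthogonal and symplectic groups generated by
elements of small rank) are applied to the representations `End H(Z)`: all equivariant
multilinear maps from powers of `T_i` to `End H(Z)` are killed by `so(T_i)` or `sp(T_i)`. Let `U` be a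
stable subspace of `T_i^(⊗ a) ⊗ H(Z)`, `a ≤ m_i`, and `P` an equivariant projector to `U`. Its kernel is
an equivariant multilinear map from `T_i^(⊗ 2 a)` to `End H(Z)`, so by the first fundamental theorem of
invariant theory (in the range `2 a < dim T_i` without relations) `P` is a sum of Brauer diagrams with
coefficients `A_j` in `End_Δ H(Z)`. For the diagrams without arcs, which are permutations, one
evaluates `P` at tensors of isotropic eigenvectors with unit eigenvalues: this shows that `A_j(H(Z))` is
effective with the same `ν`, so it lies in `N^ν H(Z)`. The other diagrams have an arc at the top, they
split off the transcendental part of the diagonal, an algebraic class of codimension `dim Y_i`, and an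
effective subspace of `T_i^(⊗ a - 2) ⊗ H(Z)` with `ν - dim Y_i`: induction. The products of classes of
cycles of codimension `j` with `N^ν` lie in `N^(j + ν)`. For the converse one multiplies with the class
of a point of the `Y_i` and takes the push-forward to `Z`.

The hypothesis `CyclesHaveConiveau` (classes of cycles of codimension `j` are in `N^j`) is a theorem, by
alterations.
-/

set_option autoImplicit false

open CategoryTheory AlgebraicGeometry

namespace Pool.Agent.Results.MP_8abef2_ag.PowersWithUnitRoots

open Pool.Agent.TH125.Gal Pool.Agent.V11219.Loc Run7.h190.EV Run7.h190.GT
open Pool.Agent.H914 Pool.Agent.H914.VarClass Pool.Agent.H914.VarClass.Obj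
  Pool.Agent.H914.WeilCohomology

/-- **The generalized Tate conjecture for products of powers of varieties with unit roots with an
arbitrary variety.** -/
theorem result {k : Type} [Field k] {𝒱 : VarClass k} {ops : CycleOps 𝒱}
    {W : WeilCohomology.{0, 0} ops} [IsAlgClosed W.K] (hcyc : CyclesHaveConiveau W) {Γ : Type}
    [Group Γ] {χ : Γ →* W.Kˣ} {𝓟 : Set Γ} {ι : Type} {Y : ι → GVar W Γ} {Z : GVar W Γ} {m : ι → ℕ}
    (h : UnitFamily χ 𝓟 Y Z m) {S : Set ι} {T : GVar W Γ} (hT : PowTower Y Z m S T)
    (hG : IsGaloisVar χ T) (hss : IsSemisimpleAct T.act) :
    (GTC χ 𝓟 T ↔ GTC χ 𝓟 Z) ∧
    (GTC χ 𝓟 Z → ∀ V, IsImageOf χ T V → GTC χ 𝓟 V) ∧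
    (IsOneDimensional W.K (W.H Z.X) → HasIntegralNorm χ 𝓟 →
      GTC χ 𝓟 T ∧ ∀ V, IsImageOf χ T V → GTC χ 𝓟 V) := by
  obtain ⟨h1, h2⟩ := h.gtc hcyc hT hG hss
  refine ⟨h1, h2, fun hZ hF => ?_⟩
  have h3 := gtc_point (𝓟 := 𝓟) h.galois_base hZ hF
  exact ⟨h1.2 h3, h2 h3⟩

end Pool.Agent.Results.MP_8abef2_ag.PowersWithUnitRoots
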